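import Mathlib
import Pool.Agent.P.MP_ca07c0_co.Core

set_option autoImplicit false

namespace Pool.Agent.Results.MP_ca07c0_co.TwoOverThreeRootThree

/-- For every `c < 2 / (3 √3)` and all large `N`, `ℓ(N) / √N ≥ c`. -/
theorem result (κ : ℝ) (hκ : κ < 2 / (3 * Real.sqrt 3)) :
    ∀ᶠ N : ℕ in Filter.atTop,
      κ ≤ ((sSup {k : ℕ | ∀ A : Finset ℝ, A.card = N →
            ∃ S ⊆ A, S.card = k ∧
              ∀ a ∈ S, ∀ b ∈ S, ∀ c ∈ S, ∀ d ∈ S,
                a + b = c + d → (a = c ∧ b = d) ∨ (a = d ∧ b = c)} : ℕ) : ℝ)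
          / Real.sqrt (N : ℝ) := by
  filter_upwards [Pool.Agent.P.MP_ca07c0_co.eventually_sidon hκ, Filter.eventually_gt_atTop 0]
    with N hN hN0
  have hs : 0 < Real.sqrt (N : ℝ) := Real.sqrt_pos.2 (by exact_mod_cast hN0)
  rw [le_div_iff₀ hs]
  refine (Nat.le_ceil _).trans (Nat.cast_le.2 (le_csSup ⟨N, fun k hk => ?_⟩ fun A hA => ?_))
  · obtain ⟨A, hA⟩ := Infinite.exists_subset_card_eq ℝ N
    obtain ⟨S, hS, rfl, -⟩ := hk A hA
    exact hA ▸ Finset.card_le_card hS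
  · obtain ⟨S, hS, hS2, hS3⟩ := hN A hA
    obtain ⟨T, hT, hT2⟩ := Finset.exists_subset_card_eq (Nat.ceil_le.2 hS2)
    exact ⟨T, hT.trans hS, hT2, fun a ha b hb c hc d hd =>
      hS3 a (hT ha) b (hT hb) c (hT hc) d (hT hd)⟩

end Pool.Agent.Results.MP_ca07c0_co.TwoOverThreeRootThree
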